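import Pool.Agent.Y97.FD.Stm2
import Pool.Agent.Y419.FD.C

/-!
# Standard forms of supersymmetric nondegenerate matrices
-/

set_option linter.unusedSectionVars false

universe u

open Pool.Agent.Y97.FD

namespace Pool.Agent.Y96.FD

/-- Transport of a standard form along an equivalence. -/
def stdMap {R R' : Type} (ε : R ≃ R') (S : Std R) : Std R' where
  inv i := ε (S.inv (ε.symm i))
  sg i := S.sg (ε.symm i)
  par i := S.par (ε.symm i)
  inv_inv i := by simp [S.inv_inv]
  sg_sq i := S.sg_sq _
  par_inv i := by simp [S.par_inv]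
  sg_inv i := by
    rw [Equiv.symm_apply_apply]
    exact S.sg_inv _

lemma stdMap_C {R R' : Type} [Fintype R] [DecidableEq R] [Fintype R'] [DecidableEq R']
    (ε : R ≃ R') (S : Std R) (F : Type u) [CommRing F] :
    (stdMap ε S).C F = (S.C F).submatrix ε.symm ε.symm := by
  ext i j
  rw [Std.C_apply, Matrix.submatrix_apply, Std.C_apply]
  have h : (j = (stdMap ε S).inv i) ↔ (ε.symm j = S.inv (ε.symm i)) := by
    constructor
    · intro h
      rw [h]
      exact ε.symm_apply_apply _
    · intro h
      show j = ε (S.inv (ε.symm i))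
      rw [← h, ε.apply_symm_apply]
  by_cases h' : j = (stdMap ε S).inv i
  · rw [if_pos h', if_pos (h.1 h')]
    rfl
  · rw [if_neg h', if_neg (fun h'' => h' (h.2 h''))]

/-- The standard form on a sum of an even and an odd type. -/
def stdSum {A B : Type} {m : ℕ} (e : B ≃ Fin m × Bool) : Std (A ⊕ B) where
  inv := Sum.elim (fun a => Sum.inl a) (fun b => Sum.inr (e.symm ((e b).1, !(e b).2)))
  sg := Sum.elim (fun _ => 1) (fun b => if (e b).2 = false then 1 else -1)
  par := Sum.elim (fun _ => false) (fun _ => true)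
  inv_inv i := by
    rcases i with a | b
    · rfl
    · simp
  sg_sq i := by
    rcases i with a | b
    · simp
    · simp only [Sum.elim_inr]
      split_ifs <;> norm_num
  par_inv i := by
    rcases i with a | b <;> rfl
  sg_inv i := by
    rcases i with a | b
    · simp
    · cases h : (e b).2 <;> simp [h]

lemma stdSum_C {A B : Type} [Fintype A] [DecidableEq A] [Fintype B] [DecidableEq B] {m : ℕ}
    (e : B ≃ Fin m × Bool) (F : Type u) [CommRing F] (J : Matrix B B F)
    (hJ : ∀ i j, J i j =
          if (e i).1 = (e j).1 then (if (e i).2 = false ∧ (e j).2 = true then 1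
            else if (e i).2 = true ∧ (e j).2 = false then -1 else 0) else 0) :
    (stdSum (A := A) e).C F = Matrix.fromBlocks 1 0 0 J := by
  ext i j
  rw [Std.C_apply]
  rcases i with a | b <;> rcases j with a' | b'
  · rw [Matrix.fromBlocks_apply₁₁, Matrix.one_apply]
    by_cases h : a = a'
    · subst h
      have h1 : (Sum.inl a : A ⊕ B) = (stdSum (A := A) e).inv (Sum.inl a) := rfl
      rw [if_pos h1, if_pos rfl]
      simp [stdSum]
    · rw [if_neg h, if_neg]
      intro h'
      exact h (Sum.inl.inj h').symm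
  · rw [Matrix.fromBlocks_apply₁₂, if_neg]
    · rfl
    · intro h'
      exact absurd h' Sum.inr_ne_inl
  · rw [Matrix.fromBlocks_apply₂₁, if_neg]
    · rfl
    · intro h'
      exact absurd h' Sum.inl_ne_inr
  · rw [Matrix.fromBlocks_apply₂₂, hJ]
    have key : (Sum.inr b' : A ⊕ B) = (stdSum (A := A) e).inv (Sum.inr b) ↔
        (e b).1 = (e b').1 ∧ (e b').2 = !(e b).2 := by
      constructor
      · intro h
        have h1 : b' = e.symm ((e b).1, !(e b).2) := Sum.inr.inj h
        have h2 : e b' = ((e b).1, !(e b).2) := by rw [h1, Equiv.apply_symm_apply]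
        rw [h2]
        exact ⟨rfl, rfl⟩
      · rintro ⟨h1, h2⟩
        have h3 : e b' = ((e b).1, !(e b).2) := Prod.ext h1.symm h2
        have h4 : b' = e.symm ((e b).1, !(e b).2) := by rw [← h3, Equiv.symm_apply_apply]
        show (Sum.inr b' : A ⊕ B) = Sum.inr (e.symm ((e b).1, !(e b).2))
        rw [← h4]
    have hsg : (stdSum (A := A) e).sg (Sum.inr b) = if (e b).2 = false then 1 else -1 := rfl
    rw [hsg]
    by_cases h1 : (e b).1 = (e b').1
    · rw [if_pos h1]
      cases h2 : (e b).2 <;> cases h3 : (e b').2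
      · rw [if_neg (fun h => by have := (key.1 h).2; rw [h2, h3] at this; simp at this)]
        simp
      · rw [if_pos (key.2 ⟨h1, by rw [h2, h3]; rfl⟩)]
        simp
      · rw [if_pos (key.2 ⟨h1, by rw [h2, h3]; rfl⟩)]
        simp
      · rw [if_neg (fun h => by have := (key.1 h).2; rw [h2, h3] at this; simp at this)]
        simp
    · rw [if_neg h1, if_neg (fun h => h1 (key.1 h).1)]

theorem jobD : Pool.Agent.Y97.FD.JobD.{u} := by
  intro F _ _ _ N par G hblk hsym hdet
  classical
  set p : Fin N → Prop := fun i => par i = false with hp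
  have hdet2 := Matrix.twoBlockTriangular_det G p (fun i hi j hj => hblk i j (by
    intro h
    exact hi (show par i = false from h.trans hj)))
  rw [hdet2] at hdet
  set Ge : Matrix {i // p i} {i // p i} F := G.submatrix Subtype.val Subtype.val with hGe
  set Go : Matrix {i // ¬ p i} {i // ¬ p i} F := G.submatrix Subtype.val Subtype.val with hGo
  have hGe0 : Ge.det ≠ 0 := left_ne_zero_of_mul hdet
  have hGo0 : Go.det ≠ 0 := right_ne_zero_of_mul hdet
  have hGes : Ge.transpose = Ge := by
    ext i j
    rw [Matrix.transpose_apply]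
    have h1 : par i.1 = false := i.2
    show G j.1 i.1 = G i.1 j.1
    rw [hsym i.1 j.1, h1]
    simp
  have hGos : Go.transpose = -Go := by
    ext i j
    rw [Matrix.transpose_apply]
    have h1 : par i.1 = true := by
      have := i.2
      simpa [hp] using this
    show G j.1 i.1 = - G i.1 j.1
    rw [hsym i.1 j.1, h1]
    simp
  obtain ⟨jc1, jc2⟩ := Pool.Agent.Y419.FD.jobC.{u} F
  obtain ⟨Te, hTe, hTe1⟩ := jc1 {i // p i} Ge hGes hGe0
  obtain ⟨m, e, To, hTo, hTo1⟩ := jc2 {i // ¬ p i} Go hGos hGo0
  set J := To.transpose * Go * To with hJ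
  set ε : {i // p i} ⊕ {i // ¬ p i} ≃ Fin N := Equiv.sumCompl p with hε
  have hC := stdSum_C (A := {i // p i}) e F J hTo1
  set S0 : Std ({i // p i} ⊕ {i // ¬ p i}) := stdSum (A := {i // p i}) e with hS0
  have uTe : IsUnit Te.det := isUnit_iff_ne_zero.2 hTe
  have uTo : IsUnit To.det := isUnit_iff_ne_zero.2 hTo
  have hM0 : (Matrix.fromBlocks Te⁻¹ 0 0 To⁻¹).transpose * S0.C F *
      (Matrix.fromBlocks Te⁻¹ 0 0 To⁻¹) = Matrix.fromBlocks Ge 0 0 Go := by
    rw [hC, Matrix.fromBlocks_transpose, Matrix.fromBlocks_multiply, Matrix.fromBlocks_multiply]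
    have h1 : Te⁻¹.transpose * Te.transpose = 1 := by
      rw [← Matrix.transpose_mul, Matrix.mul_nonsing_inv _ uTe, Matrix.transpose_one]
    have h2 : To⁻¹.transpose * To.transpose = 1 := by
      rw [← Matrix.transpose_mul, Matrix.mul_nonsing_inv _ uTo, Matrix.transpose_one]
    have h3 : Te⁻¹.transpose * 1 * Te⁻¹ = Ge := by
      rw [← hTe1]
      calc Te⁻¹.transpose * (Te.transpose * Ge * Te) * Te⁻¹
          = (Te⁻¹.transpose * Te.transpose) * Ge * (Te * Te⁻¹) := by
            simp only [Matrix.mul_assoc]
        _ = Ge := by rw [h1, Matrix.mul_nonsing_inv _ uTe, Matrix.one_mul, Matrix.mul_one]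
    have h4 : To⁻¹.transpose * J * To⁻¹ = Go := by
      calc To⁻¹.transpose * (To.transpose * Go * To) * To⁻¹
          = (To⁻¹.transpose * To.transpose) * Go * (To * To⁻¹) := by
            simp only [Matrix.mul_assoc]
        _ = Go := by rw [h2, Matrix.mul_nonsing_inv _ uTo, Matrix.one_mul, Matrix.mul_one]
    simp only [Matrix.transpose_zero, Matrix.zero_mul, Matrix.mul_zero, add_zero, zero_add, h3, h4]
  have hGG : G = (Matrix.fromBlocks Ge 0 0 Go).submatrix ε.symm ε.symm := by
    ext i j
    obtain ⟨i', rfl⟩ := ε.surjective i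
    obtain ⟨j', rfl⟩ := ε.surjective j
    rw [Matrix.submatrix_apply, Equiv.symm_apply_apply, Equiv.symm_apply_apply]
    rcases i' with i' | i' <;> rcases j' with j' | j'
    · rfl
    · rw [Matrix.fromBlocks_apply₁₂]
      refine hblk _ _ ?_
      intro h
      exact j'.2 (show par j'.1 = false from h.symm.trans i'.2)
    · rw [Matrix.fromBlocks_apply₂₁]
      refine hblk _ _ ?_
      intro h
      exact i'.2 (show par i'.1 = false from h.trans j'.2)
    · rfl
  refine ⟨stdMap ε S0, (Matrix.fromBlocks Te⁻¹ 0 0 To⁻¹).submatrix ε.symm ε.symm,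
    (Matrix.fromBlocks Te 0 0 To).submatrix ε.symm ε.symm, ?_, ?_, ?_, ?_⟩
  · intro i
    obtain ⟨i', rfl⟩ := ε.surjective i
    show S0.par (ε.symm (ε i')) = par (ε i')
    rw [Equiv.symm_apply_apply]
    rcases i' with i' | i'
    · have h1 : par i'.1 = false := i'.2
      show false = par i'.1
      rw [h1]
    · have h1 : par i'.1 = true := by
        have := i'.2
        simpa [hp] using this
      show true = par i'.1
      rw [h1]
  · rw [Matrix.submatrix_mul_equiv, Matrix.fromBlocks_multiply]
    simp only [Matrix.mul_zero, Matrix.zero_mul, add_zero, zero_add,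
      Matrix.nonsing_inv_mul _ uTe, Matrix.nonsing_inv_mul _ uTo, Matrix.fromBlocks_one]
    exact Matrix.submatrix_one_equiv _
  · rw [stdMap_C, Matrix.transpose_submatrix, Matrix.submatrix_mul_equiv,
      Matrix.submatrix_mul_equiv, hM0, ← hGG]
  · intro i j hij
    obtain ⟨i', rfl⟩ := ε.surjective i
    obtain ⟨j', rfl⟩ := ε.surjective j
    rw [Matrix.submatrix_apply, Equiv.symm_apply_apply, Equiv.symm_apply_apply]
    rcases i' with i' | i' <;> rcases j' with j' | j'
    · exfalso
      exact hij ((show par i'.1 = false from i'.2).trans (show par j'.1 = false from j'.2).symm)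
    · rfl
    · rfl
    · exfalso
      have h1 : par i'.1 = true := by
        have := i'.2
        simpa [hp] using this
      have h2 : par j'.1 = true := by
        have := j'.2
        simpa [hp] using this
      exact hij (h1.trans h2.symm)

end Pool.Agent.Y96.FD
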